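import Pool.Agent.Helper3_XQ.Ne2
import Pool.Agent.Helper34_XQ.Lcc
import Pool.Agent.Helper84_XQ.Pol4

/-!
Squad XQ (MP_5b0138_an), part E4, module E4_LE2: locality for the germs GE1 and GE2.
-/

set_option autoImplicit false

namespace Pool.Agent.XQ.K4.H3

open Complex Pool.Agent.H16Iso Pool.Agent.H62T Pool.Agent.AEU

theorem hyL_pos {δ1 δ2 ρ : ℝ} (hy : HyL δ1 δ2 ρ) : 0 < Real.sin δ2 ∧ Real.sin δ1 < 0 ∧
    0 < Real.sin (δ2 - δ1) := by
  refine ⟨Real.sin_pos_of_pos_of_lt_pi hy.b3 (by linarith [hy.b4, Real.pi_pos]),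
    Real.sin_neg_of_neg_of_neg_pi_lt hy.b2 (by linarith [hy.b1, Real.pi_pos]),
    Real.sin_pos_of_pos_of_lt_pi (by linarith [hy.b5, Real.pi_pos]) (by linarith [hy.b1, hy.b4])⟩

/-- the relation at the vertex -/
theorem rel01 (η1 η2 : ℝ) (x : ℂ) : Real.cos η2 * ip (I * exp (η1 * I)) x
    + Real.cos η1 * ip (-(I * exp (-(η2 * I)))) x = -Real.sin (η1 + η2) * x.re := by
  rw [ip0, ip1, Real.sin_add]; ring

/-- the relation of the two lines -/
theorem rel23 (δ1 δ2 : ℝ) (x : ℂ) : Real.sin δ2 * ip (exp (δ1 * I)) x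
    - Real.sin δ1 * ip (exp (δ2 * I)) x = Real.sin (δ2 - δ1) * x.re := by
  rw [ipe, ipe, Real.sin_sub]; ring

/-- `x = 0` if it has no component along the two independent normals -/
theorem zero_of {δ1 δ2 ρ : ℝ} (hy : HyL δ1 δ2 ρ) {x : ℂ} (h2 : ip (exp (δ1 * I)) x = 0)
    (h3 : ip (exp (δ2 * I)) x = 0) : x = 0 := by
  obtain ⟨s2, s1, s⟩ := hyL_pos hy
  have h := rel23 δ1 δ2 x
  rw [h2, h3, mul_zero, mul_zero, sub_zero] at h
  have hre : x.re = 0 := by
    rcases mul_eq_zero.1 h.symm with h' | h'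
    · exact absurd h' s.ne'
    · exact h'
  rw [ipe, hre, mul_zero, zero_add] at h3
  have him : x.im = 0 := by
    rcases mul_eq_zero.1 h3 with h' | h'
    · exact absurd h' s2.ne'
    · exact h'
  exact Complex.ext hre him

theorem norm_u (η1 η2 δ1 δ2 : ℝ) (s : Fin 4) : ‖uE η1 η2 δ1 δ2 s‖ = 1 := by
  fin_cases s
  · show ‖I * exp (η1 * I)‖ = 1
    rw [norm_mul, Complex.norm_I, Complex.norm_exp_ofReal_mul_I, one_mul]
  · show ‖-(I * exp (-(η2 * I)))‖ = 1
    have e : exp (-(η2 * I)) = exp (((-η2 : ℝ) : ℂ) * I) := by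
      congr 1; push_cast; ring
    rw [norm_neg, norm_mul, Complex.norm_I, e, Complex.norm_exp_ofReal_mul_I, one_mul]
  · show ‖exp (δ1 * I)‖ = 1
    rw [Complex.norm_exp_ofReal_mul_I]
  · show ‖exp (δ2 * I)‖ = 1
    rw [Complex.norm_exp_ofReal_mul_I]

theorem le2_of (hL : LccStatement) : Le2Statement := by
  constructor
  · intro η1 η2 δ1 δ2 ρ hy
    have hyL := hy.toHyL
    obtain ⟨s2, s1, s⟩ := hyL_pos hyL
    have k2 : 0 < Real.cos η2 := Real.cos_pos_of_mem_Ioo ⟨by linarith [hy.a3, Real.pi_pos], hy.a4⟩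
    have k1 : 0 < Real.cos η1 := Real.cos_pos_of_mem_Ioo ⟨by linarith [hy.a1, Real.pi_pos], hy.a2⟩
    have ks : 0 < Real.sin (η1 + η2) := Real.sin_pos_of_pos_of_lt_pi (by linarith [hy.a1, hy.a3])
      (by linarith [hy.a2, hy.a4])
    refine hL _ _ _ _ (norm_u η1 η2 δ1 δ2) ?_ ?_
    · intro x hx
      left
      by_contra hcon
      push Not at hcon
      have q0 : 0 ≤ ip (I * exp (η1 * I)) x := hcon 0 (by decide)
      have q1 : 0 ≤ ip (-(I * exp (-(η2 * I)))) x := hcon 1 (by decide)
      have q2 : 0 ≤ ip (exp (δ1 * I)) x := hcon 2 (by decide)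
      have q3 : 0 ≤ ip (exp (δ2 * I)) x := hcon 3 (by decide)
      have r1 := rel01 η1 η2 x
      have r2 := rel23 δ1 δ2 x
      have p0 := mul_nonneg k2.le q0
      have p1 := mul_nonneg k1.le q1
      have p2 := mul_nonneg s2.le q2
      have p3 := mul_nonneg (neg_pos.2 s1).le q3
      have hre1 : x.re ≤ 0 := by
        by_contra h
        push Not at h
        have := mul_pos ks h
        linarith
      have hre2 : 0 ≤ x.re := by
        by_contra h
        push Not at h
        have := mul_neg_of_pos_of_neg s h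
        linarith
      have hre : x.re = 0 := le_antisymm hre1 hre2
      rw [hre, mul_zero] at r2
      have z2 : ip (exp (δ1 * I)) x = 0 := by
        have : Real.sin δ2 * ip (exp (δ1 * I)) x = 0 := by linarith
        rcases mul_eq_zero.1 this with h' | h'
        · exact absurd h' s2.ne'
        · exact h'
      have z3 : ip (exp (δ2 * I)) x = 0 := by
        have : Real.sin δ1 * ip (exp (δ2 * I)) x = 0 := by linarith
        rcases mul_eq_zero.1 this with h' | h'
        · exact absurd h' s1.ne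
        · exact h'
      exact hx (zero_of hyL z2 z3)
    · rintro ⟨x, hx, -⟩
      have q0 : 0 ≤ ip (I * exp (η1 * I)) x := hx 0 (by decide)
      have q1 : 0 ≤ ip (-(I * exp (-(η2 * I)))) x := hx 1 (by decide)
      have q2 : ip (exp (δ1 * I)) ρ ≤ ip (exp (δ1 * I)) x := hx 2 (by decide)
      have q3 : ip (exp (δ2 * I)) ρ ≤ ip (exp (δ2 * I)) x := hx 3 (by decide)
      have r1 := rel01 η1 η2 x
      have r2 := rel23 δ1 δ2 x
      have r3 := rel23 δ1 δ2 ρ
      have p0 := mul_nonneg k2.le q0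
      have p1 := mul_nonneg k1.le q1
      have p2 := mul_le_mul_of_nonneg_left q2 s2.le
      have p3 := mul_le_mul_of_nonneg_left q3 (neg_pos.2 s1).le
      have p4 : 0 < Real.sin (δ2 - δ1) * ρ := mul_pos s hyL.r
      rw [Complex.ofReal_re] at r3
      have hre2 : 0 < x.re := by
        by_contra h
        push Not at h
        have := mul_nonpos_of_nonneg_of_nonpos s.le h
        linarith
      have := mul_pos ks hre2
      linarith
  · intro η1 η2 δ1 δ2 ρ hy
    have hyL := hy.toHyL
    obtain ⟨s2, s1, s⟩ := hyL_pos hyL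
    have k2 : 0 < Real.cos η2 := Real.cos_pos_of_mem_Ioo ⟨by linarith [hy.a2, Real.pi_pos], by
      linarith [hy.a1, hy.a3]⟩
    have k1 : Real.cos η1 < 0 := Real.cos_neg_of_pi_div_two_lt_of_lt hy.a1 (by
      linarith [hy.a2, hy.a3, Real.pi_pos])
    have ks : 0 < Real.sin (η1 + η2) := Real.sin_pos_of_pos_of_lt_pi (by
      linarith [hy.a1, hy.a2, Real.pi_pos]) hy.a3
    refine hL _ _ _ _ (norm_u η1 η2 δ1 δ2) ?_ ?_
    · intro x hx
      by_contra hcon
      push Not at hcon
      obtain ⟨hc1, hc2⟩ := hcon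
      have q0 : 0 ≤ ip (I * exp (η1 * I)) x := hc1 0 (by decide)
      have q1 : ip (-(I * exp (-(η2 * I)))) x ≤ 0 := hc2 1 (by decide)
      have q2 : 0 ≤ ip (exp (δ1 * I)) x := hc1 2 (by decide)
      have q3 : 0 ≤ ip (exp (δ2 * I)) x := hc1 3 (by decide)
      have r1 := rel01 η1 η2 x
      have r2 := rel23 δ1 δ2 x
      have p0 := mul_nonneg k2.le q0
      have p1 := mul_nonneg_of_nonpos_of_nonpos k1.le q1
      have p2 := mul_nonneg s2.le q2
      have p3 := mul_nonneg (neg_pos.2 s1).le q3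
      have hre1 : x.re ≤ 0 := by
        by_contra h
        push Not at h
        have := mul_pos ks h
        linarith
      have hre2 : 0 ≤ x.re := by
        by_contra h
        push Not at h
        have := mul_neg_of_pos_of_neg s h
        linarith
      have hre : x.re = 0 := le_antisymm hre1 hre2
      rw [hre, mul_zero] at r2
      have z2 : ip (exp (δ1 * I)) x = 0 := by
        have : Real.sin δ2 * ip (exp (δ1 * I)) x = 0 := by linarith
        rcases mul_eq_zero.1 this with h' | h'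
        · exact absurd h' s2.ne'
        · exact h'
      have z3 : ip (exp (δ2 * I)) x = 0 := by
        have : Real.sin δ1 * ip (exp (δ2 * I)) x = 0 := by linarith
        rcases mul_eq_zero.1 this with h' | h'
        · exact absurd h' s1.ne
        · exact h'
      exact hx (zero_of hyL z2 z3)
    · rintro ⟨x, hx, hx'⟩
      have q0 : 0 ≤ ip (I * exp (η1 * I)) x := hx 0 (by decide)
      have q1 : ip (-(I * exp (-(η2 * I)))) x ≤ 0 := hx' 1 (by decide)
      have q2 : ip (exp (δ1 * I)) ρ ≤ ip (exp (δ1 * I)) x := hx 2 (by decide)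
      have q3 : ip (exp (δ2 * I)) ρ ≤ ip (exp (δ2 * I)) x := hx 3 (by decide)
      have r1 := rel01 η1 η2 x
      have r2 := rel23 δ1 δ2 x
      have r3 := rel23 δ1 δ2 ρ
      have p0 := mul_nonneg k2.le q0
      have p1 := mul_nonneg_of_nonpos_of_nonpos k1.le q1
      have p2 := mul_le_mul_of_nonneg_left q2 s2.le
      have p3 := mul_le_mul_of_nonneg_left q3 (neg_pos.2 s1).le
      have p4 : 0 < Real.sin (δ2 - δ1) * ρ := mul_pos s hyL.r
      rw [Complex.ofReal_re] at r3
      have hre2 : 0 < x.re := by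
        by_contra h
        push Not at h
        have := mul_nonpos_of_nonneg_of_nonpos s.le h
        linarith
      have := mul_pos ks hre2
      linarith

theorem le2 : Le2Statement := le2_of (H34.lcc H84.pol)

end Pool.Agent.XQ.K4.H3
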