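import Pool.Agent.Helper36_XQ.Stmt5
import Pool.Agent.Helper69_AEU.Lam
import Pool.Agent.Helper69_AEU.Per

/-!
Squad XQ (MP_5b0138_an), part E4, module E4_NE2: nearly minimal quadruples.
-/

set_option autoImplicit false

namespace Pool.Agent.XQ.K4.H3

open Complex Pool.Agent.H16Iso Pool.Agent.H62T Pool.Agent.AEU

theorem ip_def (z w : ℂ) : ip z w = z.re * w.re + z.im * w.im := rfl

theorem ipe (θ : ℝ) (x : ℂ) : ip (exp (θ * I)) x = Real.cos θ * x.re + Real.sin θ * x.im := by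
  rw [ip_def, Complex.exp_ofReal_mul_I_re, Complex.exp_ofReal_mul_I_im]

theorem ip0 (η : ℝ) (x : ℂ) : ip (I * exp (η * I)) x
    = -Real.sin η * x.re + Real.cos η * x.im := by
  rw [ip_def, Complex.mul_re, Complex.mul_im, Complex.exp_ofReal_mul_I_re,
    Complex.exp_ofReal_mul_I_im]
  simp

theorem ip1 (η : ℝ) (x : ℂ) : ip (-(I * exp (-(η * I)))) x
    = -Real.sin η * x.re - Real.cos η * x.im := by
  have e : exp (-(η * I)) = exp (((-η : ℝ) : ℂ) * I) := by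
    congr 1; push_cast; ring
  rw [e, ip_def, Complex.neg_re, Complex.neg_im, Complex.mul_re, Complex.mul_im,
    Complex.exp_ofReal_mul_I_re, Complex.exp_ofReal_mul_I_im, Real.cos_neg, Real.sin_neg]
  simp
  ring

theorem ipd (ψ φ : ℝ) (x : ℂ) : ip (-I * (exp (ψ * I) - exp (φ * I))) x
    = (Real.sin ψ - Real.sin φ) * x.re + (Real.cos φ - Real.cos ψ) * x.im := by
  rw [ip_def, Complex.mul_re, Complex.mul_im, Complex.sub_re, Complex.sub_im,
    Complex.exp_ofReal_mul_I_re, Complex.exp_ofReal_mul_I_im, Complex.exp_ofReal_mul_I_re,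
    Complex.exp_ofReal_mul_I_im]
  simp

theorem ip_ge (e w : ℂ) (he : e.re ^ 2 + e.im ^ 2 = 1) : -‖w‖ ≤ ip e w := by
  have h1 : ‖w‖ ^ 2 = w.re ^ 2 + w.im ^ 2 := by
    rw [Complex.sq_norm, Complex.normSq_apply]; ring
  have h2 : (ip e w) ^ 2 ≤ ‖w‖ ^ 2 := by
    rw [h1, ip_def]
    nlinarith [sq_nonneg (e.re * w.im - e.im * w.re)]
  exact (abs_le_of_sq_le_sq' h2 (norm_nonneg w)).1

theorem LE_eq (δ1 δ2 ρ : ℝ) : 2 * Real.sin δ2 * ip (exp (δ1 * I)) ρ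
    - 2 * Real.sin δ1 * ip (exp (δ2 * I)) ρ = LE δ1 δ2 ρ := by
  rw [ipe, ipe]
  unfold LE
  rw [Real.sin_sub]
  simp
  ring

theorem tri_le (p : Fin 4 → ℂ) : ‖p 0 - p 2‖ + ‖p 2 - p 3‖ + ‖p 3 - p 0‖ ≤ lam (hf p) := by
  rw [← H69.lam3]
  refine H69.lam_mono (H69.sub_hf _) (H69.sub_hf _) (fun w => ?_)
  rw [H69.hf_le_iff]
  intro i
  fin_cases i
  · exact (H69.hf_le_iff p w _).1 le_rfl 0
  · exact (H69.hf_le_iff p w _).1 le_rfl 2
  · exact (H69.hf_le_iff p w _).1 le_rfl 3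

theorem ne2 (hC : Ce2Statement) (hT : TreStatement) (hP : PteStatement) : Ne2Statement := by
  intro η1 η2 δ1 δ2 ρ ε hy hε
  have hyL := hy.toHyL
  obtain ⟨g0, g1, -⟩ := hP δ1 δ2 ρ hyL
  obtain ⟨c0, c1, r0, hc0, hc1, hr0, e1, e2, hce⟩ := hC η1 η2 (gE δ1 δ2) hy.a1 hy.a2 hy.a3 hy.a4 g0
    (by unfold gE; linarith [hy.c])
  obtain ⟨d, hd, htre⟩ := hT δ1 δ2 ρ (ε / 2) hyL (by positivity)
  have hcos : 0 < Real.cos (gE δ1 δ2) := Real.cos_pos_of_mem_Ioo ⟨by linarith, g1⟩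
  have hs2 : 0 < Real.sin δ2 := Real.sin_pos_of_pos_of_lt_pi hyL.b3 (by
    linarith [hyL.b4, Real.pi_pos])
  have hs1 : Real.sin δ1 < 0 := Real.sin_neg_of_neg_of_neg_pi_lt hyL.b2 (by
    linarith [hyL.b1, Real.pi_pos])
  set K : ℝ := 1 + c0 + c1 + 2 * Real.sin δ2 - 2 * Real.sin δ1 with hK
  have hKpos : 0 < K := by rw [hK]; linarith
  set K2 : ℝ := (c0 + c1 + c1 * (K / r0)) / (2 * Real.cos (gE δ1 δ2)) with hK2
  have hK2pos : 0 < K2 := by rw [hK2]; positivity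
  refine ⟨min d (min (r0 * ε / (4 * K)) (d / (K2 + 1))), by positivity, fun p hp hlam => ?_⟩
  set δ : ℝ := min d (min (r0 * ε / (4 * K)) (d / (K2 + 1))) with hδ
  have hδ0 : 0 < δ := by rw [hδ]; positivity
  have hδd : δ ≤ d := min_le_left _ _
  have hδ1 : δ ≤ r0 * ε / (4 * K) := (min_le_right _ _).trans (min_le_left _ _)
  have hδ2 : δ ≤ d / (K2 + 1) := (min_le_right _ _).trans (min_le_right _ _)
  have h0 := hp 0
  have h1 := hp 1
  have h2 := hp 2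
  have h3 := hp 3
  simp only [hE, uE, Matrix.cons_val_zero, Matrix.cons_val_one, Matrix.cons_val, zero_sub] at h0 h1 h2 h3
  have hpsi := hce (2 * Real.pi + δ1 + δ2) p (by unfold gE; linarith [hyL.b3]) (by
    unfold gE; linarith [hyL.b2])
  rw [ipd, ipd] at hpsi
  have a1 : Real.sin (2 * Real.pi + δ1 + δ2) = Real.sin (δ1 + δ2) := by
    rw [show 2 * Real.pi + δ1 + δ2 = (δ1 + δ2) + 2 * Real.pi by ring, Real.sin_add_two_pi]
  have a2 : Real.cos (2 * Real.pi + δ1 + δ2) = Real.cos (δ1 + δ2) := by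
    rw [show 2 * Real.pi + δ1 + δ2 = (δ1 + δ2) + 2 * Real.pi by ring, Real.cos_add_two_pi]
  have a3 : Real.sin (3 * Real.pi / 2 - gE δ1 δ2) = Real.sin (δ1 - δ2) := by
    unfold gE
    rw [show 3 * Real.pi / 2 - (δ2 - δ1 - Real.pi / 2) = (δ1 - δ2) + 2 * Real.pi by ring,
      Real.sin_add_two_pi]
  have a4 : Real.cos (3 * Real.pi / 2 - gE δ1 δ2) = Real.cos (δ1 - δ2) := by
    unfold gE
    rw [show 3 * Real.pi / 2 - (δ2 - δ1 - Real.pi / 2) = (δ1 - δ2) + 2 * Real.pi by ring,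
      Real.cos_add_two_pi]
  have a5 : Real.sin (5 * Real.pi / 2 + gE δ1 δ2) = Real.sin (δ2 - δ1) := by
    unfold gE
    rw [show 5 * Real.pi / 2 + (δ2 - δ1 - Real.pi / 2) = (δ2 - δ1) + 2 * Real.pi by ring,
      Real.sin_add_two_pi]
  have a6 : Real.cos (5 * Real.pi / 2 + gE δ1 δ2) = Real.cos (δ2 - δ1) := by
    unfold gE
    rw [show 5 * Real.pi / 2 + (δ2 - δ1 - Real.pi / 2) = (δ2 - δ1) + 2 * Real.pi by ring,
      Real.cos_add_two_pi]
  rw [a1, a2, a3, a4, a5, a6] at hpsi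
  have b2 : (Real.sin (δ1 + δ2) - Real.sin (δ1 - δ2)) * (p 2).re
      + (Real.cos (δ1 - δ2) - Real.cos (δ1 + δ2)) * (p 2).im
      = 2 * Real.sin δ2 * ip (exp (δ1 * I)) (p 2) := by
    rw [ipe, Real.sin_add, Real.sin_sub, Real.cos_add, Real.cos_sub]; ring
  have b3 : (Real.sin (δ2 - δ1) - Real.sin (δ1 + δ2)) * (p 3).re
      + (Real.cos (δ1 + δ2) - Real.cos (δ2 - δ1)) * (p 3).im
      = -(2 * Real.sin δ1) * ip (exp (δ2 * I)) (p 3) := by
    rw [ipe, Real.sin_add, Real.sin_sub, Real.cos_add, Real.cos_sub]; ring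
  have hL := LE_eq δ1 δ2 ρ
  have m0 : c0 * (-δ) ≤ c0 * ip (I * exp (η1 * I)) (p 0) := mul_le_mul_of_nonneg_left h0 hc0.le
  have m1 : c1 * (-δ) ≤ c1 * ip (-(I * exp (-(η2 * I)))) (p 1) := mul_le_mul_of_nonneg_left h1 hc1.le
  have m2 : 2 * Real.sin δ2 * (ip (exp (δ1 * I)) ρ - δ) ≤ 2 * Real.sin δ2 * ip (exp (δ1 * I)) (p 2) :=
    mul_le_mul_of_nonneg_left h2 (by positivity)
  have m3 : -(2 * Real.sin δ1) * (ip (exp (δ2 * I)) ρ - δ)
      ≤ -(2 * Real.sin δ1) * ip (exp (δ2 * I)) (p 3) :=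
    mul_le_mul_of_nonneg_left h3 (by linarith)
  have hr : r0 * ‖p 0 - p 1‖ < K * δ := by
    rw [hK]
    linarith only [hpsi, b2, b3, hL, hlam, m0, m1, m2, m3, hδ0]
  have hdist : ‖p 0 - p 1‖ < K / r0 * δ := by
    rw [div_mul_eq_mul_div, lt_div_iff₀ hr0]
    linarith only [hlam, hpsi, b2, b3, hL, m0, m1, m2, m3]
  have hdist' : ‖p 0 - p 1‖ ≤ ε / 4 := by
    refine hdist.le.trans ?_
    calc K / r0 * δ ≤ K / r0 * (r0 * ε / (4 * K)) := mul_le_mul_of_nonneg_left hδ1 (by positivity)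
      _ = ε / 4 := by field_simp
  have hre : (p 0).re ≤ d := by
    have i0 := ip0 η1 (p 0)
    have i1 := ip1 η2 (p 0)
    have i2 : ip (-(I * exp (-(η2 * I)))) (p 0) = ip (-(I * exp (-(η2 * I)))) (p 1)
        + ip (-(I * exp (-(η2 * I)))) (p 0 - p 1) := by
      rw [ip1, ip1, ip1, Complex.sub_re, Complex.sub_im]; ring
    have i3 : -‖p 0 - p 1‖ ≤ ip (-(I * exp (-(η2 * I)))) (p 0 - p 1) := by
      rw [ip1]
      have := ip_ge (⟨-Real.sin η2, -Real.cos η2⟩ : ℂ) (p 0 - p 1) (by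
        simp only
        nlinarith only [Real.sin_sq_add_cos_sq η2])
      rw [ip_def] at this
      linarith only [this]
    have i4 : 2 * Real.cos (gE δ1 δ2) * (p 0).re = -(c0 * ip (I * exp (η1 * I)) (p 0))
        - c1 * ip (-(I * exp (-(η2 * I)))) (p 0) := by
      rw [i0, i1]
      linear_combination (-(p 0).re) * e1 + (p 0).im * e2
    have i5 : 2 * Real.cos (gE δ1 δ2) * (p 0).re ≤ (c0 + c1 + c1 * (K / r0)) * δ := by
      rw [i4, i2]
      have : c1 * (-(K / r0 * δ)) ≤ c1 * ip (-(I * exp (-(η2 * I)))) (p 0 - p 1) :=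
        mul_le_mul_of_nonneg_left (by linarith only [hdist, i3]) hc1.le
      linarith only [this, m0, m1]
    have i6 : (p 0).re ≤ K2 * δ := by
      rw [hK2, div_mul_eq_mul_div, le_div_iff₀ (by positivity)]
      linarith only [i5]
    have i7 : K2 * δ ≤ (K2 + 1) * (d / (K2 + 1)) := by
      have : K2 * δ ≤ (K2 + 1) * δ := by linarith only [hδ0]
      exact this.trans (mul_le_mul_of_nonneg_left hδ2 (by positivity))
    have i8 : (K2 + 1) * (d / (K2 + 1)) = d := by field_simp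
    linarith only [i6, i7, i8]
  obtain ⟨t0, t2, t3⟩ := htre (p 0) (p 2) (p 3) hre (by linarith) (by linarith) (by
    have := tri_le p
    linarith)
  refine ⟨by linarith only [hε, t0], ?_, by linarith only [hε, t2], by linarith only [hε, t3]⟩
  calc ‖p 1‖ = ‖p 0 - (p 0 - p 1)‖ := by congr 1; ring
    _ ≤ ‖p 0‖ + ‖p 0 - p 1‖ := norm_sub_le _ _
    _ < ε := by linarith only [hε, hdist', t0]

end Pool.Agent.XQ.K4.H3
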